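import Pool.Agent.Work.MP_a8e1ec_co.Subgroups

set_option autoImplicit false

namespace Pool.Agent.Results.MP_a8e1ec_co.ArcTransitiveCubic

universe u

/-- The subgroup `Γ` of the automorphism group of `G` acts quasi-transitively on `G`: finitely
many vertices meet all `Γ`-orbits. -/
def QuasiTransitive {V : Type} {G : SimpleGraph V} (Γ : Subgroup (G ≃g G)) : Prop :=
  ∃ S : Finset V, ∀ v : V, ∃ s ∈ S, ∃ g ∈ Γ, g s = v

/-- The subgroup `Γ` is transitive on ordered pairs of adjacent vertices. -/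
def ArcTransitive {V : Type} {G : SimpleGraph V} (Γ : Subgroup (G ≃g G)) : Prop :=
  ∀ u v u' v' : V, G.Adj u v → G.Adj u' v' → ∃ g ∈ Γ, g u = u' ∧ g v = v'

/-- The automorphisms preserving all colours of the edge-colouring `c`. -/
def colourStabilizer {V : Type} {G : SimpleGraph V} {C : Type u} (c : G.edgeSet → C) :
    Subgroup (G ≃g G) where
  carrier := {g | ∀ e : G.edgeSet, c (g.mapEdgeSet e) = c e}
  one_mem' := by
    rintro ⟨e, he⟩
    congr 1
    apply Subtype.ext
    change Sym2.map (1 : G ≃g G) e = e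
    exact Sym2.map_id' ▸ rfl
  mul_mem' := by
    intro g h hg hh e
    have h1 : ((g * h : G ≃g G).mapEdgeSet e) = g.mapEdgeSet (h.mapEdgeSet e) := by
      apply Subtype.ext
      change Sym2.map (g * h : G ≃g G) e.1 = Sym2.map g (Sym2.map h e.1)
      rw [Sym2.map_map]; rfl
    rw [h1, hg, hh]
  inv_mem' := by
    intro g hg e
    have h1 : g.mapEdgeSet ((g⁻¹ : G ≃g G).mapEdgeSet e) = e := by
      apply Subtype.ext
      change Sym2.map g (Sym2.map (g⁻¹ : G ≃g G) e.1) = e.1
      rw [Sym2.map_map]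
      have : (⇑g ∘ ⇑(g⁻¹ : G ≃g G)) = id := funext fun x => g.apply_symm_apply x
      rw [this, Sym2.map_id]; rfl
    rw [← hg ((g⁻¹ : G ≃g G).mapEdgeSet e), h1]

/-- The edge-colouring `c` is periodic. -/
def Periodic {V : Type} {G : SimpleGraph V} {C : Type u} (c : G.edgeSet → C) : Prop :=
  QuasiTransitive (colourStabilizer c)

/-- The edge-colouring `c` is trivial: edges in the same connected component have the same
colour. -/
def TrivialColouring {V : Type} {G : SimpleGraph V} {C : Type u} (c : G.edgeSet → C) : Prop :=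
  ∀ e f : G.edgeSet, (∃ x ∈ (e : Sym2 V), ∃ y ∈ (f : Sym2 V), G.Reachable x y) → c e = c f

/-- There is an infinite connected graph, regular of degree three, such that every subgroup of its
automorphism group with finitely many orbits of vertices is transitive on ordered pairs of
adjacent vertices; in particular the graph is quasi-transitive, locally finite and non-trivial,
and all its periodic edge-colourings, with any set of colours, are trivial. -/
theorem result :
    ∃ (V : Type) (G : SimpleGraph V), Infinite V ∧ G.Connected ∧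
      (∀ v : V, (G.neighborSet v).ncard = 3) ∧
      QuasiTransitive (⊤ : Subgroup (G ≃g G)) ∧
      (∀ Γ : Subgroup (G ≃g G), QuasiTransitive Γ → ArcTransitive Γ) ∧
      (∀ (C : Type u) (c : G.edgeSet → C), Periodic c → TrivialColouring c) := by
  classical
  have harcT : ∀ Γ : Subgroup (Work.MP_a8e1ec_co.cosetGraph Work.MP_a8e1ec_co.data ≃g
      Work.MP_a8e1ec_co.cosetGraph Work.MP_a8e1ec_co.data),
      QuasiTransitive Γ → ArcTransitive Γ := by
    rintro Γ ⟨S, hS⟩ u v u' v' huv huv'
    obtain ⟨γ, h1, h2⟩ := Work.MP_a8e1ec_co.act_arc Work.MP_a8e1ec_co.data huv huv'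
    exact ⟨_, Work.MP_a8e1ec_co.act_mem_of_quasiTransitive Γ S hS γ, h1, h2⟩
  have htriv : ∀ (C : Type u)
      (c : (Work.MP_a8e1ec_co.cosetGraph Work.MP_a8e1ec_co.data).edgeSet → C),
      Periodic c → ∀ e f, c e = c f := by
    intro C c hc
    rintro ⟨e, he⟩ ⟨f, hf⟩
    induction e using Sym2.ind with
    | _ u v =>
    induction f using Sym2.ind with
    | _ u' v' =>
    obtain ⟨g, hg, h1, h2⟩ := harcT _ hc u v u' v' he hf
    have h3 := hg ⟨s(u, v), he⟩
    rw [← h3]
    congr 1
    apply Subtype.ext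
    change s(g u, g v) = s(u', v')
    rw [h1, h2]
  have hcub := Work.MP_a8e1ec_co.cubic_cosetGraph Work.MP_a8e1ec_co.data
  refine ⟨Work.MP_a8e1ec_co.CV Work.MP_a8e1ec_co.hE,
    Work.MP_a8e1ec_co.cosetGraph Work.MP_a8e1ec_co.data, ?_,
    Work.MP_a8e1ec_co.connected_cosetGraph Work.MP_a8e1ec_co.data, ?_, ?_, harcT,
    fun C c hc e f _ => htriv C c hc e f⟩
  · -- infinite: otherwise the colouring with all colours different would be periodic
    by_contra hfin
    rw [not_infinite_iff_finite] at hfin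
    haveI := Fintype.ofFinite (Work.MP_a8e1ec_co.CV Work.MP_a8e1ec_co.hE)
    have hbot : QuasiTransitive (⊥ : Subgroup (Work.MP_a8e1ec_co.cosetGraph
        Work.MP_a8e1ec_co.data ≃g Work.MP_a8e1ec_co.cosetGraph Work.MP_a8e1ec_co.data)) :=
      ⟨Finset.univ, fun v => ⟨v, Finset.mem_univ v, 1, Subgroup.mem_bot.2 rfl, rfl⟩⟩
    obtain ⟨x, y, z, hxy, -, -, h⟩ := hcub ((1 : Work.MP_a8e1ec_co.Ga) :
      Work.MP_a8e1ec_co.CV Work.MP_a8e1ec_co.hE)
    obtain ⟨g, hg, h1, h2⟩ := harcT _ hbot _ _ _ _ ((h x).2 (Or.inl rfl))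
      ((h y).2 (Or.inr (Or.inl rfl)))
    rw [Subgroup.mem_bot.1 hg] at h2
    exact hxy h2
  · intro v
    obtain ⟨x, y, z, hxy, hyz, hxz, h⟩ := hcub v
    have : (Work.MP_a8e1ec_co.cosetGraph Work.MP_a8e1ec_co.data).neighborSet v = {x, y, z} := by
      ext w
      rw [SimpleGraph.mem_neighborSet, h w]
      simp
    rw [this, Set.ncard_eq_three]
    exact ⟨x, y, z, hxy, hxz, hyz, rfl⟩
  · refine ⟨{((1 : Work.MP_a8e1ec_co.Ga) : Work.MP_a8e1ec_co.CV Work.MP_a8e1ec_co.hE)},
      fun v => ⟨_, Finset.mem_singleton_self _, ?_⟩⟩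
    obtain ⟨g, rfl⟩ := QuotientGroup.mk_surjective v
    exact ⟨Work.MP_a8e1ec_co.act Work.MP_a8e1ec_co.data g, Subgroup.mem_top _, by
      rw [Work.MP_a8e1ec_co.act_apply, mul_one]⟩

end Pool.Agent.Results.MP_a8e1ec_co.ArcTransitiveCubic
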